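import Mathlib

/-!
# The blow-up lemma for finite product spaces (Hamming distance)
-/

set_option autoImplicit false

namespace Pool.Agent.Lib.KDig

open Finset

variable {α : Type} [Fintype α] [DecidableEq α]

/-- the constant of one coordinate -/
noncomputable def ca (t : ℝ) : ℝ := (1 + Real.exp t) ^ 2 / (4 * Real.exp t)

theorem ca_pos (t : ℝ) : 0 < ca t := by
  unfold ca
  positivity

theorem ca_le (t : ℝ) : ca t ≤ Real.exp (t ^ 2 / 4) := by
  have h1 : ca t = Real.cosh (t / 2) ^ 2 := by
    unfold ca
    rw [Real.cosh_eq]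
    have h2 : Real.exp t = Real.exp (t / 2) ^ 2 := by
      rw [← Real.exp_nat_mul]
      congr 1
      push_cast
      ring
    have h3 : Real.exp (-(t / 2)) = (Real.exp (t / 2))⁻¹ := Real.exp_neg _
    rw [h2, h3]
    have h4 : Real.exp (t / 2) ≠ 0 := (Real.exp_pos _).ne'
    field_simp
    ring
  rw [h1]
  have h2 := Real.cosh_le_exp_half_sq (t / 2)
  have h3 : 0 ≤ Real.cosh (t / 2) := (Real.cosh_pos _).le
  calc Real.cosh (t / 2) ^ 2 ≤ Real.exp ((t / 2) ^ 2 / 2) ^ 2 := by gcongr
    _ = Real.exp (t ^ 2 / 4) := by
      rw [← Real.exp_nat_mul]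
      congr 1
      push_cast
      ring

private theorem one_coord {t u g : ℝ} (hu1 : u ≤ 1) (h1 : g * u ≤ 1)
    (h2 : g ≤ Real.exp t) : g ≤ 1 + Real.exp t - Real.exp t * u := by
  have he : 0 < Real.exp t := Real.exp_pos t
  rcases le_or_gt (Real.exp t * u) 1 with h | h
  · linarith
  · have hu : 0 < u := by
      by_contra hcon
      have : u ≤ 0 := not_lt.1 hcon
      nlinarith
    have h3 : 0 ≤ (1 - u) * (Real.exp t * u - 1) := mul_nonneg (by linarith) (by linarith)
    have h4 : g * u ≤ (1 + Real.exp t - Real.exp t * u) * u := by nlinarith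
    exact le_of_mul_le_mul_right h4 hu

/-- The exponential inequality. -/
theorem exp_ineq (t : ℝ) (n : ℕ) (A : Finset (Fin n → α)) (g : (Fin n → α) → ℝ)
    (hg : ∀ x, ∀ a ∈ A, g x ≤ Real.exp (t * hammingDist x a)) (ht : 0 ≤ t) :
    (∑ x, g x) * #A ≤ (Fintype.card α : ℝ) ^ (2 * n) * ca t ^ n := by
  induction n with
  | zero =>
    rcases A.eq_empty_or_nonempty with hA | ⟨a, ha⟩
    · subst hA
      simp
    · have h1 : #A = 1 := by
        have h2 : #A ≤ 1 := by
          refine (card_le_univ A).trans ?_
          simp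
        exact le_antisymm h2 (card_pos.2 ⟨a, ha⟩)
      have h2 : ∑ x : Fin 0 → α, g x = g a := by
        rw [Fintype.sum_unique]
        congr 1
        exact Subsingleton.elim _ _
      have h3 := hg a a ha
      rw [hammingDist_self] at h3
      simp only [Nat.cast_zero, mul_zero, Real.exp_zero] at h3
      rw [h1, h2]
      simpa using h3
  | succ n ih =>
    set N : ℝ := (Fintype.card α : ℝ) with hN
    set K : ℝ := N ^ (2 * n) * ca t ^ n with hK
    have hca := (ca_pos t).le
    have hK0 : 0 ≤ K := by positivity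
    -- sections and projection
    set Aw : α → Finset (Fin n → α) := fun w => univ.filter (fun y => (Fin.cons w y : Fin (n+1) → α) ∈ A)
      with hAw
    set B : Finset (Fin n → α) := univ.filter (fun y => ∃ w, (Fin.cons w y : Fin (n+1) → α) ∈ A)
      with hB
    have hsub : ∀ w, Aw w ⊆ B := by
      intro w y hy
      simp only [hAw, mem_filter, mem_univ, true_and] at hy
      simp only [hB, mem_filter, mem_univ, true_and]
      exact ⟨w, hy⟩
    have hcardA : (#A : ℝ) = ∑ w, (#(Aw w) : ℝ) := by
      have h1 : #A = ∑ w, #(Aw w) := by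
        rw [← card_sigma]
        refine (card_bij (fun p _ => (Fin.cons p.1 p.2 : Fin (n+1) → α)) ?_ ?_ ?_).symm
        · rintro ⟨w, y⟩ hp
          simp only [mem_sigma, mem_univ, true_and, hAw, mem_filter] at hp
          exact hp
        · rintro ⟨w, y⟩ _ ⟨w', y'⟩ _ h
          have h2 := Fin.cons_injective2 h
          obtain ⟨h3, h4⟩ := h2
          subst h3
          subst h4
          rfl
        · intro x hx
          refine ⟨⟨x 0, Fin.tail x⟩, ?_, Fin.cons_self_tail x⟩
          simp only [mem_sigma, mem_univ, true_and, hAw, mem_filter]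
          rw [Fin.cons_self_tail]
          exact hx
      rw [h1]
      push_cast
      rfl
    have hsum : ∑ x, g x = ∑ w, ∑ y, g (Fin.cons w y) := by
      rw [← Fintype.sum_prod_type']
      exact (Fintype.sum_equiv (Fin.consEquiv (fun _ : Fin (n+1) => α)) _ _ (fun _ => rfl)).symm
    -- distances
    have hd0 : ∀ (w : α) (y b : Fin n → α),
        hammingDist (Fin.cons w y : Fin (n+1) → α) (Fin.cons w b) = hammingDist y b := by
      intro w y b
      unfold hammingDist
      rw [Fin.univ_succ, filter_cons]
      simp [filter_map]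
    have hd1 : ∀ (w w' : α) (y b : Fin n → α),
        hammingDist (Fin.cons w y : Fin (n+1) → α) (Fin.cons w' b) ≤ 1 + hammingDist y b := by
      intro w w' y b
      have h1 := hammingDist_triangle (Fin.cons w y : Fin (n+1) → α) (Fin.cons w' y) (Fin.cons w' b)
      rw [hd0] at h1
      have h2 : hammingDist (Fin.cons w y : Fin (n+1) → α) (Fin.cons w' y) ≤ 1 := by
        unfold hammingDist
        rw [card_le_one]
        intro i hi j hj
        simp only [mem_filter, mem_univ, true_and] at hi hj
        have h3 : ∀ i : Fin (n+1), (Fin.cons w y : Fin (n+1) → α) i ≠ (Fin.cons w' y : Fin (n+1) → α) i → i = 0 := by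
          intro i hi
          rcases Fin.eq_zero_or_eq_succ i with h | ⟨k, h⟩
          · exact h
          · subst h
            simp at hi
        rw [h3 i hi, h3 j hj]
      omega
    rcases B.eq_empty_or_nonempty with hBe | hBne
    · have h1 : (#A : ℝ) = 0 := by
        rw [hcardA]
        refine sum_eq_zero fun w _ => ?_
        have : Aw w = ∅ := subset_empty.1 (hBe ▸ hsub w)
        rw [this]
        simp
      rw [h1, mul_zero]
      have := ca_pos t
      positivity
    have hBpos : (0 : ℝ) < #B := by exact_mod_cast card_pos.2 hBne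
    set G : α → ℝ := fun w => ∑ y, g (Fin.cons w y) with hG
    have hG1 : ∀ w, G w * #(Aw w) ≤ K := by
      intro w
      refine ih (Aw w) (fun y => g (Fin.cons w y)) ?_
      intro y a ha
      simp only [hAw, mem_filter, mem_univ, true_and] at ha
      have := hg (Fin.cons w y) _ ha
      rwa [hd0] at this
    have hG2 : ∀ w, G w * #B ≤ Real.exp t * K := by
      intro w
      have h1 := ih B (fun y => Real.exp (-t) * g (Fin.cons w y)) ?_
      · rw [← mul_sum] at h1
        have h2 : Real.exp t * (Real.exp (-t) * G w * #B) ≤ Real.exp t * K :=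
          mul_le_mul_of_nonneg_left h1 (Real.exp_pos t).le
        have h3 : Real.exp t * Real.exp (-t) = 1 := by
          rw [← Real.exp_add]
          simp
        calc G w * #B = (Real.exp t * Real.exp (-t)) * (G w * #B) := by rw [h3, one_mul]
          _ = Real.exp t * (Real.exp (-t) * G w * #B) := by ring
          _ ≤ _ := h2
      · intro y b hb
        simp only [hB, mem_filter, mem_univ, true_and] at hb
        obtain ⟨w', hw'⟩ := hb
        have h2 := hg (Fin.cons w y) _ hw'
        have h3 : Real.exp (t * hammingDist (Fin.cons w y : Fin (n+1) → α) (Fin.cons w' b)) ≤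
            Real.exp (t * (1 + hammingDist y b)) := by
          apply Real.exp_le_exp.2
          apply mul_le_mul_of_nonneg_left _ ht
          exact_mod_cast hd1 w w' y b
        calc Real.exp (-t) * g (Fin.cons w y)
            ≤ Real.exp (-t) * Real.exp (t * (1 + hammingDist y b)) :=
              mul_le_mul_of_nonneg_left (h2.trans h3) (Real.exp_pos _).le
          _ = Real.exp (t * hammingDist y b) := by
              rw [← Real.exp_add]
              congr 1
              ring
    -- combination
    set U : ℝ := ∑ w, (#(Aw w) : ℝ) / #B with hU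
    have hAU : (#A : ℝ) = #B * U := by
      rw [hcardA, hU, mul_sum]
      refine sum_congr rfl fun w _ => ?_
      field_simp
    have hGw : ∀ w, G w * #B ≤ K * (1 + Real.exp t - Real.exp t * ((#(Aw w) : ℝ) / #B)) := by
      intro w
      rcases hK0.eq_or_lt with hK0' | hKpos
      · have h1 := hG2 w
        rw [← hK0', mul_zero] at h1
        rw [← hK0', zero_mul]
        exact h1
      have h1 : G w * #B / K ≤ 1 + Real.exp t - Real.exp t * ((#(Aw w) : ℝ) / #B) := by
        apply one_coord
        · rw [div_le_one hBpos]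
          exact_mod_cast card_le_card (hsub w)
        · have h2 : G w * #B / K * ((#(Aw w) : ℝ) / #B) = G w * #(Aw w) / K := by
            field_simp
          rw [h2, div_le_one hKpos]
          exact hG1 w
        · rw [div_le_iff₀ hKpos]
          exact hG2 w
      calc G w * #B = K * (G w * #B / K) := by field_simp
        _ ≤ _ := mul_le_mul_of_nonneg_left h1 hK0
    have hU0 : 0 ≤ U := sum_nonneg fun w _ => by positivity
    have hSum : (∑ w, G w) * #B ≤ K * (N * (1 + Real.exp t) - Real.exp t * U) := by
      rw [sum_mul]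
      calc ∑ w, G w * #B ≤ ∑ w, K * (1 + Real.exp t - Real.exp t * ((#(Aw w) : ℝ) / #B)) :=
            sum_le_sum fun w _ => hGw w
        _ = K * (N * (1 + Real.exp t) - Real.exp t * U) := by
            rw [← mul_sum, sum_sub_distrib, ← mul_sum, sum_const, nsmul_eq_mul, card_univ]
    have hquad : (N * (1 + Real.exp t) - Real.exp t * U) * U ≤ N ^ 2 * ca t := by
      unfold ca
      have he : 0 < Real.exp t := Real.exp_pos t
      have h1 : 0 ≤ (N * (1 + Real.exp t) - 2 * Real.exp t * U) ^ 2 := sq_nonneg _
      have h2 : N ^ 2 * ((1 + Real.exp t) ^ 2 / (4 * Real.exp t)) =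
          (N ^ 2 * (1 + Real.exp t) ^ 2) / (4 * Real.exp t) := by ring
      rw [h2, le_div_iff₀ (by positivity)]
      nlinarith
    rw [hsum]
    change (∑ w, G w) * #A ≤ _
    calc (∑ w, G w) * #A = ((∑ w, G w) * #B) * U := by rw [hAU]; ring
      _ ≤ (K * (N * (1 + Real.exp t) - Real.exp t * U)) * U :=
          mul_le_mul_of_nonneg_right hSum hU0
      _ = K * ((N * (1 + Real.exp t) - Real.exp t * U) * U) := by ring
      _ ≤ K * (N ^ 2 * ca t) := mul_le_mul_of_nonneg_left hquad hK0
      _ = N ^ (2 * (n + 1)) * ca t ^ (n + 1) := by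
          rw [hK]
          ring

/-- The blow-up lemma: two sets of densities `p`, `q` have elements at Hamming distance less than `d` if
`p q exp (d² / n) > 1`. -/
theorem blow {n : ℕ} (hn : 0 < n) (A B : Finset (Fin n → α)) {d : ℝ} (hd : 0 ≤ d)
    (h : (Fintype.card α : ℝ) ^ (2 * n) < #A * #B * Real.exp (d ^ 2 / n)) :
    ∃ a ∈ A, ∃ b ∈ B, (hammingDist a b : ℝ) < d := by
  by_contra hcon
  push Not at hcon
  have hn' : (0 : ℝ) < n := by exact_mod_cast hn
  set t : ℝ := 2 * d / n with ht
  have ht0 : 0 ≤ t := by positivity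
  have h1 := exp_ineq (α := α) t n A (fun x => if x ∈ B then Real.exp (t * d) else 0) ?_ ht0
  · rw [sum_ite_mem, univ_inter, sum_const, nsmul_eq_mul] at h1
    have h2 : ca t ^ n ≤ Real.exp (n * (t ^ 2 / 4)) := by
      calc ca t ^ n ≤ Real.exp (t ^ 2 / 4) ^ n := pow_le_pow_left₀ (ca_pos t).le (ca_le t) n
        _ = Real.exp (n * (t ^ 2 / 4)) := by rw [← Real.exp_nat_mul]
    have h3 : (#B : ℝ) * Real.exp (t * d) * #A ≤
        (Fintype.card α : ℝ) ^ (2 * n) * Real.exp (n * (t ^ 2 / 4)) :=
      h1.trans (mul_le_mul_of_nonneg_left h2 (by positivity))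
    have h4 : t * d = d ^ 2 / n + n * (t ^ 2 / 4) := by
      rw [ht]
      field_simp
      ring
    rw [h4, Real.exp_add] at h3
    have h5 : 0 < Real.exp (n * (t ^ 2 / 4)) := Real.exp_pos _
    have h6 : (#A * #B * Real.exp (d ^ 2 / n)) * Real.exp (n * (t ^ 2 / 4)) ≤
        (Fintype.card α : ℝ) ^ (2 * n) * Real.exp (n * (t ^ 2 / 4)) := by
      calc (#A * #B * Real.exp (d ^ 2 / n)) * Real.exp (n * (t ^ 2 / 4))
          = (#B : ℝ) * (Real.exp (d ^ 2 / n) * Real.exp (n * (t ^ 2 / 4))) * #A := by ring
        _ ≤ _ := h3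
    exact absurd (le_of_mul_le_mul_right h6 h5) (not_le.2 h)
  · intro x a ha
    split_ifs with hx
    · apply Real.exp_le_exp.2
      apply mul_le_mul_of_nonneg_left _ ht0
      rw [hammingDist_comm]
      exact hcon a ha x hx
    · exact (Real.exp_pos _).le

end Pool.Agent.Lib.KDig
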