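import Pool.Agent.Lib.KDig.Main

/-!
# The theorem
-/

set_option autoImplicit false

namespace Pool.Agent.Lib.KDig

open Finset

variable {s : ℕ} {D : Finset ℕ} {q : ℕ} [NeZero q]

/-- combination of the two parts of the number -/
theorem combine (h : Adm s D) {d : ℕ} (hdD : d ∈ D) (hd1 : 1 ≤ d) (hd2 : d + 2 ≤ s)
    (hsq : Nat.Coprime s q) {n : ℕ} (hn0 : 0 < n) (hn : q ≤ s ^ n) (v : ℕ) (lam : ZMod q) :
    ∃ x : ℕ, 0 < x ∧ x < s ^ (n + 2 + 2 * v) ∧ (x : ZMod q) = lam ∧
      (∀ i, n + 2 ≤ i → x / s ^ i % s ∈ D) ∧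
      (#{i ∈ range (n + 2) | x / s ^ i % s ∉ D} : ℝ) ≤
        2 * Real.sqrt (n * (2 * TT s D q v + 2)) ∧
      (TT s D q v < Real.log 2 → #{i ∈ range (n + 2) | x / s ^ i % s ∉ D} = 0) := by
  classical
  have hs : 3 ≤ s := h.three
  have hs0 : 0 < s := by omega
  obtain ⟨u, hu⟩ : IsUnit (s : ZMod q) := (ZMod.isUnit_iff_coprime s q).2 hsq
  set K : ZMod q := ((∑ i ∈ range (n + 2), d * s ^ i : ℕ) : ZMod q) with hK
  set S := SS s D q v with hS
  -- the two sets
  set A : Finset (ZMod q) := S.image (fun y => ((u ^ (n + 2 + v) : (ZMod q)ˣ) : ZMod q) * y) with hA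
  set B : Finset (ZMod q) := S.image
    (fun y => lam - K - ((u ^ (n + 2) : (ZMod q)ˣ) : ZMod q) * y) with hB
  have hinj : ∀ w : (ZMod q)ˣ, Function.Injective fun y : ZMod q => (w : ZMod q) * y :=
    fun w y z hyz => by
      have h1 : (w : ZMod q) * y = w * z := hyz
      calc y = ((w⁻¹ : (ZMod q)ˣ) : ZMod q) * (w * y) := by rw [Units.inv_mul_cancel_left]
        _ = z := by rw [h1, Units.inv_mul_cancel_left]
  have hcA : #A = #S := card_image_of_injective _ (hinj _)
  have hcB : #B = #S := by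
    refine card_image_of_injective _ fun y z hyz => ?_
    have h1 := sub_right_injective hyz
    exact hinj _ h1
  have hcS : (#S : ℝ) = q * Real.exp (-TT s D q v) := card_SS h v
  obtain ⟨a, ha, b, hb, hab, hab0⟩ := close_pair (s := s) (by omega) hn0 hn (A := A) (B := B)
    (TT_nonneg h v) (by rw [hcA, hcS]) (by rw [hcB, hcS])
  simp only [lift, mem_filter, mem_univ, true_and] at ha hb
  obtain ⟨a', ha', ha2⟩ := mem_image.1 ha
  obtain ⟨b', hb', hb2⟩ := mem_image.1 hb
  obtain ⟨x₂, k1, k2, rfl⟩ := mem_SS.1 ha'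
  obtain ⟨x₁, k3, k4, rfl⟩ := mem_SS.1 hb'
  -- the differences of the digits
  set e : ℕ → ℤ := fun i => if hi : i < n then ((b ⟨i, hi⟩ : ℕ) : ℤ) - ((a ⟨i, hi⟩ : ℕ) : ℤ) else 0
    with he
  have he1 : ∀ i, -((s : ℤ) - 1) ≤ e i ∧ e i ≤ (s : ℤ) - 1 := by
    intro i
    simp only [he]
    split_ifs with hi
    · have h1 := (b ⟨i, hi⟩).is_lt
      have h2 := (a ⟨i, hi⟩).is_lt
      omega
    · omega
  obtain ⟨X, hX0, hX1, hX2, hX3⟩ := exists_X hdD hd1 hd2 e he1 n
  have hdist : #{i ∈ range n | e i ≠ 0} = hammingDist a b := by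
    unfold hammingDist
    symm
    refine card_bij (fun i _ => (i : ℕ)) ?_ ?_ ?_
    · intro i hi
      simp only [mem_filter, mem_univ, true_and] at hi
      refine mem_filter.2 ⟨mem_range.2 i.is_lt, ?_⟩
      simp only [he, i.is_lt, dif_pos]
      intro h1
      apply hi
      apply Fin.ext
      simp only [Fin.eta] at h1
      omega
    · intro i _ j _ hij
      exact Fin.ext hij
    · intro i hi
      obtain ⟨h1, h2⟩ := mem_filter.1 hi
      have h3 := mem_range.1 h1
      refine ⟨⟨i, h3⟩, ?_, rfl⟩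
      simp only [mem_filter, mem_univ, true_and]
      intro h4
      apply h2
      simp only [he, h3, dif_pos]
      rw [h4]
      ring
  -- residues
  have hsumE : ∑ i ∈ range n, e i * (s : ℤ) ^ i =
      ((finFunctionFinEquiv b : ℕ) : ℤ) - ((finFunctionFinEquiv a : ℕ) : ℤ) := by
    rw [finFunctionFinEquiv_apply, finFunctionFinEquiv_apply]
    push_cast
    rw [← sum_sub_distrib, ← Fin.sum_univ_eq_sum_range (fun i => e i * (s : ℤ) ^ i) n]
    refine sum_congr rfl fun i _ => ?_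
    simp only [he, i.is_lt, dif_pos]
    ring
  have hXr : (X : ZMod q) = K + ((finFunctionFinEquiv b : ℕ) : ZMod q) -
      ((finFunctionFinEquiv a : ℕ) : ZMod q) := by
    have h1 : (X : ℤ) = ((∑ i ∈ range (n + 2), d * s ^ i : ℕ) : ℤ) +
        (((finFunctionFinEquiv b : ℕ) : ℤ) - ((finFunctionFinEquiv a : ℕ) : ℤ)) := by
      rw [hX2, ← hsumE]
      push_cast
      rw [sum_range_succ, sum_range_succ]
      simp only [add_mul, sum_add_distrib]
      ring
    have h2 : ((X : ℤ) : ZMod q) = ((((∑ i ∈ range (n + 2), d * s ^ i : ℕ) : ℤ) +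
        (((finFunctionFinEquiv b : ℕ) : ℤ) - ((finFunctionFinEquiv a : ℕ) : ℤ)) : ℤ) : ZMod q) := by
      rw [h1]
    rw [Int.cast_natCast] at h2
    rw [h2, hK]
    push_cast
    ring
  have hlow : x₁ + s ^ v * x₂ < s ^ (v + v) := add_lt_pow k3 k1
  have hdig : Dig s D (x₁ + s ^ v * x₂) := dig_add h k3 k4 k2
  refine ⟨X + s ^ (n + 2) * (x₁ + s ^ v * x₂), by omega, ?_, ?_, ?_, ?_, ?_⟩
  · have h1 := add_lt_pow hX1 hlow
    have h2 : n + 2 + (v + v) = n + 2 + 2 * v := by ring
    rwa [h2] at h1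
  · push_cast
    rw [hXr, ← ha2, ← hb2]
    push_cast
    rw [hu]
    ring
  · intro i hi
    obtain ⟨k, rfl⟩ := Nat.exists_eq_add_of_le hi
    rw [digit_add_ge hs0 hX1]
    exact hdig k
  · have h1 : ({i ∈ range (n + 2) | (X + s ^ (n + 2) * (x₁ + s ^ v * x₂)) / s ^ i % s ∉ D} :
        Finset ℕ) = {i ∈ range (n + 2) | X / s ^ i % s ∉ D} := by
      refine filter_congr fun i hi => ?_
      rw [digit_add_lt hs0 (mem_range.1 hi)]
    rw [h1]
    rw [hdist] at hX3
    have h2 : (#{i ∈ range (n + 2) | X / s ^ i % s ∉ D} : ℝ) ≤ 2 * hammingDist a b := by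
      exact_mod_cast hX3
    linarith
  · intro hT
    have h1 : ({i ∈ range (n + 2) | (X + s ^ (n + 2) * (x₁ + s ^ v * x₂)) / s ^ i % s ∉ D} :
        Finset ℕ) = {i ∈ range (n + 2) | X / s ^ i % s ∉ D} := by
      refine filter_congr fun i hi => ?_
      rw [digit_add_lt hs0 (mem_range.1 hi)]
    rw [h1]
    rw [hdist, hab0 hT] at hX3
    omega

theorem main (h : Adm s D) : ∃ C : ℝ, 0 < C ∧ ∀ q : ℕ, 2 ≤ q → Nat.Coprime s q →
    ∀ σ : ℝ, 1 ≤ σ → ∀ N : ℕ, (q : ℝ) ^ (C * σ) ≤ N → ∀ lam : ℤ,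
      ∃ x : ℕ, 0 < x ∧ x < N ∧ (x : ℤ) ≡ lam [ZMOD q] ∧
        (∀ i, Nat.clog s q + 2 ≤ i → x / s ^ i % s ∈ D) ∧
        (#{i ∈ range (Nat.clog s q + 2) | x / s ^ i % s ∉ D} : ℝ) ≤
          Real.exp (-σ) * Real.log q := by
  obtain ⟨d, hdD, hd1, hd2⟩ := h.exists_mid
  obtain ⟨j, c, hj1, hj⟩ := exists_rep h
  have hs := h.three
  have hs1 : (1 : ℝ) < s := by exact_mod_cast (show 1 < s by omega)
  have hlogs : 1 ≤ Real.log s := by
    rw [← Real.log_exp 1]
    apply Real.log_le_log (Real.exp_pos 1)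
    have h1 := Real.exp_one_lt_d9
    have h2 : (3 : ℝ) ≤ s := by exact_mod_cast hs
    linarith
  have hlog2 : 0.69 < Real.log 2 := by
    have := Real.log_two_gt_d9
    linarith
  have hlog2' : Real.log 2 < 0.7 := by
    have := Real.log_two_lt_d9
    linarith
  have hj' : (1 : ℝ) ≤ j := by exact_mod_cast hj1
  set K : ℝ := 1 + Real.log s / Real.log 2 with hK
  have hK1 : 1 ≤ K := by
    have : 0 ≤ Real.log s / Real.log 2 := by positivity
    linarith
  refine ⟨K * (5 + 14 * j), by positivity, ?_⟩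
  intro q hq hsq σ hσ N hN lam
  have : NeZero q := ⟨by omega⟩
  have hq' : (2 : ℝ) ≤ q := by exact_mod_cast hq
  set L : ℝ := Real.log q with hL
  have hL2 : Real.log 2 ≤ L := Real.log_le_log (by norm_num) hq'
  have hL0 : 0 < L := by linarith
  set n : ℕ := Nat.clog s q with hn
  have hn0 : 0 < n := Nat.clog_pos (by omega) (by omega)
  have hqn : q ≤ s ^ n := Nat.le_pow_clog (by omega) q
  have hn' : (1 : ℝ) ≤ n := by exact_mod_cast hn0
  have hnlog : ((n : ℝ) - 1) * Real.log s < L := by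
    have h1 : s ^ (n - 1) < q := Nat.pow_pred_clog_lt_self (by omega) (by omega)
    have h2 : ((s : ℝ)) ^ (n - 1) < q := by exact_mod_cast h1
    have h3 := Real.log_lt_log (by positivity) h2
    rw [Real.log_pow, Nat.cast_sub hn0, Nat.cast_one] at h3
    exact h3
  have hnL : (n : ℝ) ≤ 3 * L := by
    have h1 : (n : ℝ) - 1 < L := by nlinarith
    have h2 : 1 ≤ 2 * L := by linarith
    linarith
  have hnK : (n : ℝ) * Real.log s ≤ K * L := by
    have h1 : Real.log s ≤ Real.log s / Real.log 2 * L := by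
      rw [div_mul_eq_mul_div, le_div_iff₀ (by linarith)]
      nlinarith
    have h2 : K * L = L + Real.log s / Real.log 2 * L := by rw [hK]; ring
    rw [h2]
    nlinarith
  set M : ℕ := ⌈(j : ℝ) * (2 * σ + 5)⌉₊ with hM
  have hM1 : (j : ℝ) * (2 * σ + 5) ≤ M := Nat.le_ceil _
  have hM2 : (M : ℝ) < j * (2 * σ + 5) + 1 := Nat.ceil_lt_add_one (by positivity)
  have hM3 : (M : ℝ) ≤ (7 * j + 1) * σ := by nlinarith
  -- the deficiency after `M` windows
  set T := TT s D q (M * n) with hT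
  have hT0 : 0 ≤ T := TT_nonneg h _
  set E : ℝ := Real.exp (-(2 * σ + 5)) with hE
  have hE0 : 0 < E := Real.exp_pos _
  have hT1 : T ≤ E * L := by
    refine (TT_windows h hj1 hj hqn hsq M).trans ?_
    apply mul_le_mul_of_nonneg_right _ hL0.le
    apply Real.exp_le_exp.2
    rw [neg_div, neg_le_neg_iff, le_div_iff₀ (by linarith)]
    linarith
  obtain ⟨x, hx0, hx1, hx2, hx3, hx4, hx5⟩ :=
    combine h hdD hd1 hd2 hsq hn0 hqn (M * n) (lam : ZMod q)
  refine ⟨x, hx0, ?_, ?_, hx3, ?_⟩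
  · -- size
    have h1 : (x : ℝ) < (s : ℝ) ^ (n + 2 + 2 * (M * n)) := by exact_mod_cast hx1
    have h2 : ((s : ℝ)) ^ (n + 2 + 2 * (M * n)) ≤ (q : ℝ) ^ (K * (5 + 14 * j) * σ) := by
      rw [← Real.rpow_natCast]
      rw [Real.rpow_def_of_pos (by linarith), Real.rpow_def_of_pos (by linarith)]
      apply Real.exp_le_exp.2
      push_cast
      rw [← hL]
      have h3 : (n : ℝ) + 2 + 2 * (M * n) ≤ n * (3 + 2 * M) := by nlinarith
      have h4 : (3 : ℝ) + 2 * M ≤ (5 + 14 * j) * σ := by nlinarith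
      have hM0 : (0 : ℝ) ≤ M := Nat.cast_nonneg _
      calc Real.log s * (n + 2 + 2 * (M * n)) ≤ Real.log s * (n * (3 + 2 * M)) :=
            mul_le_mul_of_nonneg_left h3 (by linarith)
        _ = (n * Real.log s) * (3 + 2 * M) := by ring
        _ ≤ (K * L) * ((5 + 14 * j) * σ) := by
            apply mul_le_mul hnK h4 (by positivity) (by positivity)
        _ = L * (K * (5 + 14 * j) * σ) := by ring
    have h3 : (x : ℝ) < N := (h1.trans_le h2).trans_le hN
    exact_mod_cast h3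
  · -- residue
    have h1 : ((x : ℤ) : ZMod q) = ((lam : ℤ) : ZMod q) := by
      rw [Int.cast_natCast]
      exact hx2
    exact (ZMod.intCast_eq_intCast_iff _ _ _).1 h1
  · -- number of exceptional digits
    rcases lt_or_ge T (Real.log 2) with h1 | h1
    · rw [hx5 h1, Nat.cast_zero]
      positivity
    · refine hx4.trans ?_
      have hexp : Real.exp (-σ) ^ 2 * Real.exp (-5) = E := by
        rw [hE, ← Real.exp_nat_mul, ← Real.exp_add]
        congr 1
        push_cast
        ring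
      have he5 : (148 : ℝ) ≤ Real.exp 5 := by
        have h3 := Real.exp_one_gt_d9
        have h4 : Real.exp 5 = Real.exp 1 ^ 5 := by
          rw [← Real.exp_nat_mul]; norm_num
        rw [h4]
        calc (148 : ℝ) ≤ (2.718 : ℝ) ^ 5 := by norm_num
          _ ≤ Real.exp 1 ^ 5 := by
            apply pow_le_pow_left₀ (by norm_num)
            linarith
      have he5' : Real.exp (-5) ≤ 1 / 148 := by
        rw [Real.exp_neg, ← one_div]
        exact one_div_le_one_div_of_le (by norm_num) he5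
      set F : ℝ := Real.exp (-σ) with hF
      have hF0 : 0 < F := Real.exp_pos _
      have hEF : E ≤ F ^ 2 / 148 := by
        rw [← hexp]
        have : 0 < F ^ 2 := by positivity
        nlinarith
      -- `L` is large
      have hEL : Real.log 2 ≤ E * L := h1.trans hT1
      have hL3 : 0.69 * 148 ≤ F ^ 2 * L := by
        have : E * L ≤ F ^ 2 / 148 * L := mul_le_mul_of_nonneg_right hEF hL0.le
        linarith
      have h2 : 4 * ((n : ℝ) * (2 * T + 2)) ≤ (F * L) ^ 2 := by
        have h3 : (n : ℝ) * (2 * T + 2) ≤ 3 * L * (2 * (F ^ 2 / 148 * L) + 2) := by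
          apply mul_le_mul hnL _ (by positivity) (by positivity)
          have : E * L ≤ F ^ 2 / 148 * L := mul_le_mul_of_nonneg_right hEF hL0.le
          linarith
        have h4 : 24 * L ≤ 0.5 * (F ^ 2 * L) * L := by nlinarith
        nlinarith
      have h3 : 2 * Real.sqrt (n * (2 * T + 2)) = Real.sqrt (4 * (n * (2 * T + 2))) := by
        have h5 : Real.sqrt 4 = 2 := by
          rw [show (4 : ℝ) = 2 ^ 2 by norm_num]
          exact Real.sqrt_sq (by norm_num)
        rw [Real.sqrt_mul (by norm_num : (0 : ℝ) ≤ 4) (n * (2 * T + 2)), h5]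
      rw [h3]
      exact Real.sqrt_le_iff.2 ⟨by positivity, h2⟩

end Pool.Agent.Lib.KDig
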