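import Mathlib

/-!
# Digits and growth of the set of residues of the integers with digits in `D`
-/

set_option autoImplicit false

namespace Pool.Agent.Lib.KDig

open Finset
open scoped Pointwise

/-- Admissible pairs: `D = {0 = d_0 < d_1 < … < d_k}` with `d_k < s`, `1 ≤ k ≤ s - 2` and
`gcd (d_1, …, d_k) = 1`. -/
structure Adm (s : ℕ) (D : Finset ℕ) : Prop where
  zero : 0 ∈ D
  lt : ∀ δ ∈ D, δ < s
  two : 2 ≤ #D
  le : #D + 1 ≤ s
  gcd : D.gcd id = 1

/-- all digits of `x` in base `s` lie in `D` -/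
def Dig (s : ℕ) (D : Finset ℕ) (x : ℕ) : Prop := ∀ i, x / s ^ i % s ∈ D

variable {s : ℕ} {D : Finset ℕ}

theorem Adm.three (h : Adm s D) : 3 ≤ s := by
  have := h.two
  have := h.le
  omega

theorem dig_zero (h : Adm s D) : Dig s D 0 := fun i => by simpa using h.zero

theorem dig_add (h : Adm s D) {v x y : ℕ} (hxv : x < s ^ v) (hx : Dig s D x) (hy : Dig s D y) :
    Dig s D (x + s ^ v * y) := by
  have hs : 0 < s := by have := h.three; omega
  intro i
  rcases lt_or_ge i v with hi | hi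
  · obtain ⟨k, rfl⟩ := Nat.exists_eq_add_of_lt hi
    have h1 : x + s ^ (i + k + 1) * y = x + s ^ i * (s * (s ^ k * y)) := by ring
    rw [h1, Nat.add_mul_div_left _ _ (by positivity), Nat.add_mul_mod_self_left]
    exact hx i
  · obtain ⟨k, rfl⟩ := Nat.exists_eq_add_of_le hi
    have h1 : (x + s ^ v * y) / s ^ v = y := by
      rw [Nat.add_mul_div_left _ _ (by positivity), Nat.div_eq_of_lt hxv, zero_add]
    rw [pow_add, ← Nat.div_div_eq_div_mul, h1]
    exact hy k

theorem dig_single (h : Adm s D) {δ : ℕ} (hδ : δ ∈ D) : Dig s D δ := by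
  intro i
  have h1 := h.lt δ hδ
  rcases Nat.eq_zero_or_pos i with hi | hi
  · subst hi
    simpa [Nat.mod_eq_of_lt h1] using hδ
  · have h2 : s ≤ s ^ i := by
      calc s = s ^ 1 := (pow_one s).symm
        _ ≤ s ^ i := Nat.pow_le_pow_right (by omega) hi
    rw [Nat.div_eq_of_lt (h1.trans_le h2)]
    simpa using h.zero

theorem add_lt_pow {v L x y : ℕ} (hx : x < s ^ v) (hy : y < s ^ L) :
    x + s ^ v * y < s ^ (v + L) := by
  rw [pow_add]
  calc x + s ^ v * y < s ^ v + s ^ v * y := by omega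
    _ = s ^ v * (y + 1) := by ring
    _ ≤ s ^ v * s ^ L := Nat.mul_le_mul_left _ hy

theorem dig_sum (h : Adm s D) (δ : ℕ → ℕ) (n : ℕ) (hδ : ∀ i < n, δ i ∈ D) :
    ∑ i ∈ range n, δ i * s ^ i < s ^ n ∧ Dig s D (∑ i ∈ range n, δ i * s ^ i) := by
  induction n with
  | zero => simpa using dig_zero h
  | succ n ih =>
    obtain ⟨h1, h2⟩ := ih fun i hi => hδ i (hi.trans n.lt_succ_self)
    rw [sum_range_succ, mul_comm (δ n)]
    have h3 := hδ n n.lt_succ_self
    refine ⟨?_, dig_add h h1 h2 (dig_single h h3)⟩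
    have h4 : δ n < s ^ 1 := by rw [pow_one]; exact h.lt _ h3
    exact add_lt_pow h1 h4

/-- `e` is a sum of `j` elements of `D` -/
def Rep (D : Finset ℕ) (j e : ℕ) : Prop := ∃ δ : ℕ → ℕ, (∀ l < j, δ l ∈ D) ∧ ∑ l ∈ range j, δ l = e

theorem Rep.mono (h0 : 0 ∈ D) {j j' e : ℕ} (h : Rep D j e) (hj : j ≤ j') : Rep D j' e := by
  obtain ⟨δ, h1, h2⟩ := h
  refine ⟨fun l => if l < j then δ l else 0, fun l _ => ?_, ?_⟩
  · dsimp only
    split_ifs with hl
    · exact h1 l hl
    · exact h0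
  · rw [← h2, ← sum_subset (range_mono hj) (fun l _ hl => ?_)]
    · exact sum_congr rfl fun l hl => by simp [mem_range.1 hl]
    · simp only [mem_range] at hl
      simp [hl]

theorem Rep.add {j j' e e' : ℕ} (h : Rep D j e) (h' : Rep D j' e') : Rep D (j + j') (e + e') := by
  obtain ⟨δ, h1, h2⟩ := h
  obtain ⟨δ', h1', h2'⟩ := h'
  refine ⟨fun l => if l < j then δ l else δ' (l - j), fun l hl => ?_, ?_⟩
  · dsimp only
    split_ifs with h
    · exact h1 l h
    · exact h1' _ (by omega)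
  · rw [sum_range_add, ← h2, ← h2']
    congr 1
    · exact sum_congr rfl fun l hl => by simp [mem_range.1 hl]
    · exact sum_congr rfl fun l _ => by simp

theorem rep_closure {e : ℕ} (he : e ∈ AddSubmonoid.closure (D : Set ℕ)) :
    ∃ j ≤ e, Rep D j e := by
  induction he using AddSubmonoid.closure_induction with
  | mem x hx =>
    rcases Nat.eq_zero_or_pos x with h | h
    · subst h
      exact ⟨0, le_rfl, fun _ => 0, fun l hl => absurd hl (Nat.not_lt_zero l), by simp⟩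
    · exact ⟨1, h, fun _ => x, fun l _ => hx, by simp⟩
  | zero => exact ⟨0, le_rfl, fun _ => 0, fun l hl => absurd hl (Nat.not_lt_zero l), by simp⟩
  | add x y _ _ hx hy =>
    obtain ⟨j, hj, h1⟩ := hx
    obtain ⟨j', hj', h2⟩ := hy
    exact ⟨j + j', by omega, h1.add h2⟩

theorem exists_rep (h : Adm s D) : ∃ j c : ℕ, 1 ≤ j ∧ ∀ e, e < s → Rep D j (c + e) := by
  obtain ⟨n, hn⟩ := Nat.exists_mem_closure_of_ge (D : Set ℕ)
  have hg : Nat.setGcd (D : Set ℕ) = 1 := by
    have h1 : Nat.setGcd (D : Set ℕ) ∣ D.gcd id :=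
      Finset.dvd_gcd fun b hb => Nat.setGcd_dvd_of_mem (by exact_mod_cast hb)
    rw [h.gcd] at h1
    exact Nat.dvd_one.1 h1
  have hs := h.three
  refine ⟨n + s, n, by omega, fun e he => ?_⟩
  obtain ⟨j, hj, h1⟩ := rep_closure (hn (n + e) (by omega) (by rw [hg]; exact one_dvd _))
  exact h1.mono h.zero (by omega)

/-! ### Residues -/

variable {q : ℕ} [NeZero q]

open Classical in
/-- the residues of the numbers below `s ^ h` with digits in `D` -/
noncomputable def SS (s : ℕ) (D : Finset ℕ) (q : ℕ) [NeZero q] (h : ℕ) : Finset (ZMod q) :=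
  univ.filter fun y => ∃ m : ℕ, m < s ^ h ∧ Dig s D m ∧ (m : ZMod q) = y

theorem mem_SS {h : ℕ} {y : ZMod q} :
    y ∈ SS s D q h ↔ ∃ m : ℕ, m < s ^ h ∧ Dig s D m ∧ (m : ZMod q) = y := by
  simp [SS]

theorem SS_nonempty (h : Adm s D) (v : ℕ) : (SS s D q v).Nonempty :=
  ⟨0, mem_SS.2 ⟨0, Nat.pow_pos (by have := h.three; omega), dig_zero h, by simp⟩⟩

theorem SS_add (h : Adm s D) (v L : ℕ) :
    SS s D q v + (SS s D q L).image (fun y => (s : ZMod q) ^ v * y) ⊆ SS s D q (v + L) := by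
  intro y hy
  obtain ⟨a, ha, b, hb, rfl⟩ := mem_add.1 hy
  obtain ⟨b', hb', rfl⟩ := mem_image.1 hb
  obtain ⟨m, h1, h2, rfl⟩ := mem_SS.1 ha
  obtain ⟨m', h1', h2', rfl⟩ := mem_SS.1 hb'
  exact mem_SS.2 ⟨m + s ^ v * m', add_lt_pow h1 h1', dig_add h h1 h2 h2', by push_cast; ring⟩

private theorem sum_mem_nsmul {B : Finset (ZMod q)} (j : ℕ) (f : ℕ → ZMod q)
    (hf : ∀ l < j, f l ∈ B) : ∑ l ∈ range j, f l ∈ j • B := by
  induction j with
  | zero => simp
  | succ j ih =>
    rw [sum_range_succ, succ_nsmul]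
    exact add_mem_add (ih fun l hl => hf l (hl.trans j.lt_succ_self)) (hf j j.lt_succ_self)

/-- `j`-fold sums of one window cover everything. -/
theorem cover (h : Adm s D) {j c : ℕ} (hj : ∀ e, e < s → Rep D j (c + e)) {n : ℕ}
    (hn : q ≤ s ^ n) (u : (ZMod q)ˣ) :
    j • (SS s D q n).image (fun y => (u : ZMod q) * y) = univ := by
  rw [eq_univ_iff_forall]
  intro y
  have hs := h.three
  -- digits of the number to be represented
  set z : ZMod q := (u⁻¹ : (ZMod q)ˣ) * y - ((∑ i ∈ range n, c * s ^ i : ℕ) : ZMod q) with hz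
  set m : ℕ := z.val with hm
  have hmlt : m < s ^ n := (ZMod.val_lt z).trans_le hn
  have hmz : (m : ZMod q) = z := by rw [hm, ZMod.natCast_zmod_val]
  have hdig : ∀ i, ∃ δ : ℕ → ℕ, (∀ l < j, δ l ∈ D) ∧ ∑ l ∈ range j, δ l = c + m / s ^ i % s :=
    fun i => hj _ (Nat.mod_lt _ (by omega))
  choose δ h1 h2 using hdig
  have hmsum : ∀ n : ℕ, ∑ i ∈ range n, m / s ^ i % s * s ^ i = m % s ^ n := by
    intro n
    induction n with
    | zero => simp [Nat.mod_one]
    | succ n ih =>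
      rw [sum_range_succ, ih, pow_succ, Nat.mod_mul, mul_comm (m / s ^ n % s)]
  have h3 : (u : ZMod q) * ((∑ i ∈ range n, (c + m / s ^ i % s) * s ^ i : ℕ) : ZMod q) = y := by
    have h4 : ∑ i ∈ range n, (c + m / s ^ i % s) * s ^ i =
        ∑ i ∈ range n, c * s ^ i + m := by
      simp only [add_mul, sum_add_distrib]
      rw [hmsum n, Nat.mod_eq_of_lt hmlt]
    rw [h4, Nat.cast_add, hmz, hz]
    rw [add_sub_cancel]
    rw [← mul_assoc, Units.mul_inv, one_mul]
  have h5 : y = ∑ l ∈ range j, (u : ZMod q) * ((∑ i ∈ range n, δ i l * s ^ i : ℕ) : ZMod q) := by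
    rw [← mul_sum, ← Nat.cast_sum, sum_comm]
    simp only [← sum_mul, h2]
    exact h3.symm
  rw [h5]
  refine sum_mem_nsmul j _ fun l hl => mem_image.2 ⟨_, ?_, rfl⟩
  obtain ⟨h6, h7⟩ := dig_sum h (fun i => δ i l) n (fun i _ => h1 i l hl)
  exact mem_SS.2 ⟨_, h6, h7, rfl⟩

/-- growth by one window -/
theorem grow_one (h : Adm s D) {j c : ℕ} (hj1 : 1 ≤ j) (hj : ∀ e, e < s → Rep D j (c + e))
    {n : ℕ} (hn : q ≤ s ^ n) (hsq : Nat.Coprime s q) (v : ℕ) :
    #(SS s D q v) ^ (j - 1) * q ≤ #(SS s D q (v + n)) ^ j := by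
  classical
  have hu : IsUnit ((s : ZMod q) ^ v) := by
    apply IsUnit.pow
    exact (ZMod.isUnit_iff_coprime s q).2 hsq
  obtain ⟨u, hu⟩ := hu
  have hA := SS_nonempty (q := q) h v
  have h1 := pluennecke_ruzsa_inequality_nsmul_add hA
    ((SS s D q n).image (fun y => (u : ZMod q) * y)) j
  rw [cover h hj hn u, card_univ, ZMod.card] at h1
  set a := #(SS s D q v) with ha
  set b := #(SS s D q v + (SS s D q n).image (fun y => (u : ZMod q) * y)) with hb
  have hbb : b ≤ #(SS s D q (v + n)) := by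
    rw [hb, hu]
    exact card_le_card (SS_add h v n)
  have ha0 : 0 < a := card_pos.2 hA
  have h2 : (a : ℚ≥0) ^ (j - 1) * q ≤ (b : ℚ≥0) ^ j := by
    obtain ⟨i, rfl⟩ := Nat.exists_eq_add_of_le hj1
    rw [Nat.add_sub_cancel_left]
    have ha' : (0 : ℚ≥0) < a := by exact_mod_cast ha0
    calc (a : ℚ≥0) ^ i * q ≤ (a : ℚ≥0) ^ i * (((b : ℚ≥0) / a) ^ (1 + i) * a) :=
          mul_le_mul_of_nonneg_left h1 (by positivity)
      _ = (b : ℚ≥0) ^ (1 + i) := by
          rw [div_pow]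
          field_simp
          ring
  have h3 : a ^ (j - 1) * q ≤ b ^ j := by exact_mod_cast h2
  exact h3.trans (Nat.pow_le_pow_left hbb j)

/-- the deficiency -/
noncomputable def TT (s : ℕ) (D : Finset ℕ) (q : ℕ) [NeZero q] (v : ℕ) : ℝ :=
  Real.log (q / #(SS s D q v))

theorem TT_nonneg (h : Adm s D) (v : ℕ) : 0 ≤ TT s D q v := by
  have h1 : #(SS s D q v) ≤ q := by
    have := card_le_univ (SS s D q v)
    rwa [ZMod.card] at this
  have h2 : 0 < #(SS s D q v) := card_pos.2 (SS_nonempty h v)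
  apply Real.log_nonneg
  rw [one_le_div (by exact_mod_cast h2)]
  exact_mod_cast h1

theorem card_SS (h : Adm s D) (v : ℕ) :
    (#(SS s D q v) : ℝ) = q * Real.exp (-TT s D q v) := by
  have h2 : (0 : ℝ) < #(SS s D q v) := by exact_mod_cast card_pos.2 (SS_nonempty (q := q) h v)
  have h3 : (0 : ℝ) < q := by exact_mod_cast Nat.pos_of_ne_zero (NeZero.ne q)
  unfold TT
  rw [Real.exp_neg, Real.exp_log (by positivity)]
  field_simp

theorem TT_step (h : Adm s D) {j c : ℕ} (hj1 : 1 ≤ j) (hj : ∀ e, e < s → Rep D j (c + e))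
    {n : ℕ} (hn : q ≤ s ^ n) (hsq : Nat.Coprime s q) (v : ℕ) :
    TT s D q (v + n) ≤ (1 - 1 / (j : ℝ)) * TT s D q v := by
  have h1 := grow_one h hj1 hj hn hsq v
  have ha : (0 : ℝ) < #(SS s D q v) := by exact_mod_cast card_pos.2 (SS_nonempty (q := q) h v)
  have hb : (0 : ℝ) < #(SS s D q (v + n)) := by
    exact_mod_cast card_pos.2 (SS_nonempty (q := q) h (v + n))
  have hq : (0 : ℝ) < q := by exact_mod_cast Nat.pos_of_ne_zero (NeZero.ne q)
  have h2 : ((#(SS s D q v) : ℝ)) ^ (j - 1) * q ≤ (#(SS s D q (v + n)) : ℝ) ^ j := by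
    exact_mod_cast h1
  have h3 := Real.log_le_log (by positivity) h2
  rw [Real.log_mul (by positivity) hq.ne', Real.log_pow, Real.log_pow, Nat.cast_sub hj1] at h3
  unfold TT
  rw [Real.log_div hq.ne' hb.ne', Real.log_div hq.ne' ha.ne']
  have hj' : (0 : ℝ) < j := by exact_mod_cast hj1
  have h4 : (j : ℝ) * (Real.log q - Real.log #(SS s D q (v + n))) ≤
      j * ((1 - 1 / (j : ℝ)) * (Real.log q - Real.log #(SS s D q v))) := by
    have h5 : (j : ℝ) * ((1 - 1 / (j : ℝ)) * (Real.log q - Real.log #(SS s D q v))) =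
        (j - 1) * (Real.log q - Real.log #(SS s D q v)) := by
      field_simp
    rw [h5]
    push_cast at h3
    nlinarith
  exact le_of_mul_le_mul_left h4 hj'

theorem TT_windows (h : Adm s D) {j c : ℕ} (hj1 : 1 ≤ j) (hj : ∀ e, e < s → Rep D j (c + e))
    {n : ℕ} (hn : q ≤ s ^ n) (hsq : Nat.Coprime s q) (w : ℕ) :
    TT s D q (w * n) ≤ Real.exp (-(w : ℝ) / j) * Real.log q := by
  have hj' : (0 : ℝ) < j := by exact_mod_cast hj1
  have hq : (1 : ℝ) ≤ q := by exact_mod_cast Nat.pos_of_ne_zero (NeZero.ne q)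
  induction w with
  | zero =>
    have h1 : (1 : ℝ) ≤ #(SS s D q (0 * n)) := by
      exact_mod_cast card_pos.2 (SS_nonempty (q := q) h (0 * n))
    have h2 : TT s D q (0 * n) ≤ Real.log q := by
      unfold TT
      apply Real.log_le_log (by positivity)
      rw [div_le_iff₀ (by linarith)]
      nlinarith
    simpa using h2
  | succ w ih =>
    have h1 := TT_step h hj1 hj hn hsq (w * n)
    have h2 : (w + 1) * n = w * n + n := by ring
    rw [h2]
    have h3 : 1 - 1 / (j : ℝ) ≤ Real.exp (-(1 / (j : ℝ))) := by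
      have := Real.add_one_le_exp (-(1 / (j : ℝ)))
      linarith
    have h4 : (-((w + 1 : ℕ) : ℝ) / j) = -(1 / (j : ℝ)) + -(w : ℝ) / j := by
      push_cast
      field_simp
      ring
    rw [h4, Real.exp_add, mul_assoc]
    calc TT s D q (w * n + n) ≤ (1 - 1 / (j : ℝ)) * TT s D q (w * n) := h1
      _ ≤ Real.exp (-(1 / (j : ℝ))) * TT s D q (w * n) :=
          mul_le_mul_of_nonneg_right h3 (TT_nonneg h _)
      _ ≤ _ := mul_le_mul_of_nonneg_left ih (Real.exp_pos _).le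

end Pool.Agent.Lib.KDig
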