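import Pool.Agent.Lib.KDig.Blow
import Pool.Agent.Lib.KDig.Grow

/-!
# All but few digits in `D`
-/

set_option autoImplicit false

namespace Pool.Agent.Lib.KDig

open Finset

variable {s : ℕ} {D : Finset ℕ}

theorem Adm.exists_mid (h : Adm s D) : ∃ d ∈ D, 1 ≤ d ∧ d + 2 ≤ s := by
  by_contra hcon
  push Not at hcon
  have hs := h.three
  -- otherwise `D ⊆ {0, s - 1}`
  have h1 : D ⊆ {0, s - 1} := by
    intro δ hδ
    have h2 := h.lt δ hδ
    have h3 := hcon δ hδ
    simp only [mem_insert, mem_singleton]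
    by_contra h4
    push Not at h4
    have := h3 (by omega)
    omega
  have h2 : ∀ δ ∈ D, s - 1 ∣ δ := by
    intro δ hδ
    have := h1 hδ
    simp only [mem_insert, mem_singleton] at this
    rcases this with h | h
    · rw [h]; exact dvd_zero _
    · rw [h]
  have h3 : s - 1 ∣ D.gcd id := Finset.dvd_gcd h2
  rw [h.gcd] at h3
  have := Nat.le_of_dvd one_pos h3
  omega

/-! ### Digits of sums -/

theorem digit_add_lt (hs : 0 < s) {v i : ℕ} (hi : i < v) (x y : ℕ) :
    (x + s ^ v * y) / s ^ i % s = x / s ^ i % s := by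
  obtain ⟨k, rfl⟩ := Nat.exists_eq_add_of_lt hi
  have h1 : x + s ^ (i + k + 1) * y = x + s ^ i * (s * (s ^ k * y)) := by ring
  rw [h1, Nat.add_mul_div_left _ _ (by positivity), Nat.add_mul_mod_self_left]

theorem digit_add_ge (hs : 0 < s) {v x : ℕ} (hx : x < s ^ v) (k y : ℕ) :
    (x + s ^ v * y) / s ^ (v + k) = y / s ^ k := by
  have h1 : (x + s ^ v * y) / s ^ v = y := by
    rw [Nat.add_mul_div_left _ _ (by positivity), Nat.div_eq_of_lt hx, zero_add]
  rw [pow_add, ← Nat.div_div_eq_div_mul, h1]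

theorem sum_digits (hs : 0 < s) (x : ℕ → ℕ) (n : ℕ) (hx : ∀ i < n, x i < s) :
    ∑ i ∈ range n, x i * s ^ i < s ^ n ∧
      ∀ k < n, (∑ i ∈ range n, x i * s ^ i) / s ^ k % s = x k := by
  induction n with
  | zero => simp
  | succ n ih =>
    obtain ⟨h1, h2⟩ := ih fun i hi => hx i (hi.trans n.lt_succ_self)
    rw [sum_range_succ, mul_comm (x n)]
    have h3 := hx n n.lt_succ_self
    refine ⟨?_, fun k hk => ?_⟩
    · have h4 : x n < s ^ 1 := by rwa [pow_one]
      exact add_lt_pow h1 h4
    · rcases Nat.lt_succ_iff_lt_or_eq.1 hk with hk | hk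
      · rw [digit_add_lt hs hk, h2 k hk]
      · subst hk
        have := digit_add_ge hs h1 0 (x k)
        rw [add_zero, pow_zero, Nat.div_one] at this
        rw [this, Nat.mod_eq_of_lt h3]

/-! ### Carries -/

private theorem card_filter_succ (p : ℕ → Prop) [DecidablePred p] (n : ℕ) :
    #{i ∈ range (n + 1) | p i} = #{i ∈ range n | p i} + (if p n then 1 else 0) := by
  rw [card_filter, sum_range_succ, ← card_filter]

private theorem carry {d : ℕ} (hdD : d ∈ D) (hd1 : 1 ≤ d) (hd2 : d + 2 ≤ s) (e : ℕ → ℤ)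
    (he : ∀ i, -((s : ℤ) - 1) ≤ e i ∧ e i ≤ (s : ℤ) - 1) (n : ℕ) :
    ∃ (x : ℕ → ℕ) (κ : ℤ), (∀ i, x i < s) ∧ -1 ≤ κ ∧ κ ≤ 1 ∧
      ∑ i ∈ range n, ((d : ℤ) + e i) * (s : ℤ) ^ i =
        ∑ i ∈ range n, (x i : ℤ) * (s : ℤ) ^ i + κ * (s : ℤ) ^ n ∧
      #{i ∈ range n | x i ∉ D} + (if κ = 0 then 0 else 1) ≤ 2 * #{i ∈ range n | e i ≠ 0} := by
  induction n with
  | zero => exact ⟨fun _ => 0, 0, fun _ => by show 0 < s; omega, by norm_num, by norm_num,
      by simp, by simp⟩
  | succ n ih =>
    obtain ⟨x, κ, h1, h2, h3, h4, h5⟩ := ih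
    have hs : (0 : ℤ) < s := by omega
    set t : ℤ := κ + d + e n with ht
    have hmod0 := Int.emod_nonneg t hs.ne'
    have hmod1 := Int.emod_lt_of_pos t hs
    have hdiv := Int.emod_add_mul_ediv t s
    obtain ⟨he1, he2⟩ := he n
    have hk1 : -1 ≤ t / s := by
      rw [Int.le_ediv_iff_mul_le hs]
      omega
    have hk2 : t / s ≤ 1 := by
      have : t / s < 2 := by
        rw [Int.ediv_lt_iff_lt_mul hs]
        omega
      omega
    refine ⟨Function.update x n (t % s).toNat, t / s, ?_, hk1, hk2, ?_, ?_⟩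
    · intro i
      rcases eq_or_ne i n with hi | hi
      · subst hi
        rw [Function.update_self]
        omega
      · rw [Function.update_of_ne hi]
        exact h1 i
    · rw [sum_range_succ, sum_range_succ, h4, Function.update_self, Int.toNat_of_nonneg hmod0]
      have h6 : ∑ i ∈ range n, ((Function.update x n (t % s).toNat i : ℕ) : ℤ) * (s : ℤ) ^ i =
          ∑ i ∈ range n, (x i : ℤ) * (s : ℤ) ^ i := by
        refine sum_congr rfl fun i hi => ?_
        rw [Function.update_of_ne (mem_range.1 hi).ne]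
      rw [h6, pow_succ]
      have h7 : (d : ℤ) + e n = t % s + s * (t / s) - κ := by
        rw [hdiv, ht]
        ring
      rw [h7]
      ring
    · have h8 : ({i ∈ range n | Function.update x n (t % s).toNat i ∉ D} : Finset ℕ) =
          {i ∈ range n | x i ∉ D} := by
        refine filter_congr fun i hi => ?_
        rw [Function.update_of_ne (mem_range.1 hi).ne]
      rw [card_filter_succ, card_filter_succ (fun i => e i ≠ 0), h8, Function.update_self]
      by_cases hen : e n = 0
      · have ht0 : 0 ≤ t := by omega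
        have ht1 : t < s := by omega
        have h9 : t / s = 0 := Int.ediv_eq_zero_of_lt ht0 ht1
        have h10 : t % s = t := Int.emod_eq_of_lt ht0 ht1
        rw [h9, h10, if_pos rfl, if_neg (not_not.2 hen)]
        by_cases hκ : κ = 0
        · have h11 : t.toNat = d := by omega
          rw [h11, if_neg (not_not.2 hdD)]
          rw [if_pos hκ] at h5
          exact h5
        · rw [if_neg hκ] at h5
          have h12 : (if t.toNat ∉ D then 1 else 0) ≤ 1 := by split_ifs <;> omega
          omega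
      · rw [if_pos hen]
        have h12 : (if (t % s).toNat ∉ D then 1 else 0) ≤ 1 := by split_ifs <;> omega
        have h13 : (if t / s = 0 then 0 else 1) ≤ 1 := by split_ifs <;> omega
        omega

theorem exists_X {d : ℕ} (hdD : d ∈ D) (hd1 : 1 ≤ d) (hd2 : d + 2 ≤ s) (e : ℕ → ℤ)
    (he : ∀ i, -((s : ℤ) - 1) ≤ e i ∧ e i ≤ (s : ℤ) - 1) (n : ℕ) :
    ∃ X : ℕ, 0 < X ∧ X < s ^ (n + 2) ∧
      (X : ℤ) = ∑ i ∈ range n, ((d : ℤ) + e i) * (s : ℤ) ^ i + d * (s : ℤ) ^ n +
        d * (s : ℤ) ^ (n + 1) ∧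
      #{i ∈ range (n + 2) | X / s ^ i % s ∉ D} ≤ 2 * #{i ∈ range n | e i ≠ 0} := by
  obtain ⟨x, κ, h1, h2, h3, h4, h5⟩ := carry hdD hd1 hd2 e he n
  have hs : 0 < s := by omega
  set y : ℕ → ℕ := fun i => if i < n then x i else if i = n then (κ + d).toNat else d with hy
  have hy1 : ∀ i < n + 2, y i < s := by
    intro i _
    simp only [hy]
    split_ifs
    · exact h1 i
    · omega
    · omega
  obtain ⟨h6, h7⟩ := sum_digits hs y (n + 2) hy1
  have hyn : y n = (κ + d).toNat := by simp [hy]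
  have hyn1 : y (n + 1) = d := by simp [hy]
  have hsum : ∑ i ∈ range (n + 2), y i * s ^ i =
      ∑ i ∈ range n, x i * s ^ i + (κ + d).toNat * s ^ n + d * s ^ (n + 1) := by
    rw [sum_range_succ, sum_range_succ, hyn, hyn1]
    congr 2
    exact sum_congr rfl fun i hi => by simp [hy, mem_range.1 hi]
  refine ⟨∑ i ∈ range (n + 2), y i * s ^ i, ?_, h6, ?_, ?_⟩
  · rw [hsum]
    have : 0 < d * s ^ (n + 1) := by positivity
    omega
  · rw [hsum, h4]
    push_cast
    rw [Int.toNat_of_nonneg (by omega)]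
    ring
  · have h8 : ({i ∈ range (n + 2) | (∑ i ∈ range (n + 2), y i * s ^ i) / s ^ i % s ∉ D} :
        Finset ℕ) = {i ∈ range (n + 2) | y i ∉ D} := by
      refine filter_congr fun i hi => ?_
      rw [h7 i (mem_range.1 hi)]
    rw [h8]
    have h9 : #{i ∈ range (n + 2) | y i ∉ D} ≤
        #{i ∈ range n | x i ∉ D} + (if κ = 0 then 0 else 1) := by
      have h10 : ({i ∈ range n | y i ∉ D} : Finset ℕ) = {i ∈ range n | x i ∉ D} := by
        refine filter_congr fun i hi => ?_
        simp [hy, mem_range.1 hi]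
      rw [card_filter_succ (fun i => y i ∉ D), card_filter_succ (fun i => y i ∉ D), h10, hyn, hyn1,
        if_neg (not_not.2 hdD)]
      by_cases hκ : κ = 0
      · rw [if_pos hκ, hκ, if_neg (by simpa using hdD)]
      · rw [if_neg hκ]
        have h12 : (if (κ + d).toNat ∉ D then 1 else 0) ≤ 1 := by split_ifs <;> omega
        omega
    exact h9.trans h5

/-! ### Two dense sets of residues -/

variable {q : ℕ} [NeZero q]

/-- the digit vectors of the numbers below `s ^ n` with residue in `A` -/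
noncomputable def lift (s n : ℕ) (A : Finset (ZMod q)) : Finset (Fin n → Fin s) :=
  univ.filter fun c => ((finFunctionFinEquiv c : ℕ) : ZMod q) ∈ A

theorem card_lift (hs : 0 < s) {n : ℕ} (hn : q ≤ s ^ n) (A : Finset (ZMod q)) :
    #A * s ^ n ≤ 2 * q * #(lift s n A) := by
  have hq : 0 < q := Nat.pos_of_ne_zero (NeZero.ne q)
  have h1 : #(A ×ˢ range (s ^ n / q)) ≤
      #((range (s ^ n)).filter fun m : ℕ => (m : ZMod q) ∈ A) := by
    refine card_le_card_of_injOn (fun p : ZMod q × ℕ => (p.1.val + q * p.2 : ℕ)) ?_ ?_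
    · rintro ⟨a, k⟩ h
      simp only [coe_product, Set.mem_prod, mem_coe, mem_range] at h
      obtain ⟨ha, hk⟩ := h
      have h2 : a.val < q := ZMod.val_lt a
      have h3 : q * (k + 1) ≤ q * (s ^ n / q) := Nat.mul_le_mul_left _ hk
      have h4 : q * (s ^ n / q) ≤ s ^ n := Nat.mul_div_le _ _
      have h5 : q * (k + 1) = q * k + q := by ring
      refine mem_coe.2 (mem_filter.2 ⟨mem_range.2 ?_, ?_⟩)
      · dsimp only
        omega
      · push_cast
        simpa using ha
    · rintro ⟨a, k⟩ _ ⟨b, l⟩ _ h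
      dsimp only at h
      have h2 : a.val < q := ZMod.val_lt a
      have h3 : b.val < q := ZMod.val_lt b
      have h4 : (a.val + q * k) % q = a.val := by
        rw [Nat.add_mul_mod_self_left, Nat.mod_eq_of_lt h2]
      have h5 : (b.val + q * l) % q = b.val := by
        rw [Nat.add_mul_mod_self_left, Nat.mod_eq_of_lt h3]
      have h6 : a.val = b.val := by rw [← h4, h, h5]
      have h7 : q * k = q * l := by omega
      have h8 : k = l := Nat.eq_of_mul_eq_mul_left hq h7
      have h9 : a = b := ZMod.val_injective q h6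
      rw [h8, h9]
  have h2 : #((range (s ^ n)).filter fun m : ℕ => (m : ZMod q) ∈ A) = #(lift s n A) := by
    symm
    refine card_bij (fun c _ => (finFunctionFinEquiv c : ℕ)) ?_ ?_ ?_
    · intro c hc
      simp only [lift, mem_filter, mem_univ, true_and] at hc
      exact mem_filter.2 ⟨mem_range.2 (Fin.is_lt _), hc⟩
    · intro c _ c' _ h
      exact finFunctionFinEquiv.injective (Fin.ext h)
    · intro m hm
      obtain ⟨h3, h4⟩ := mem_filter.1 hm
      refine ⟨finFunctionFinEquiv.symm ⟨m, mem_range.1 h3⟩, ?_, ?_⟩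
      · simp only [lift, mem_filter, mem_univ, true_and, Equiv.apply_symm_apply]
        exact h4
      · simp
  rw [card_product, card_range, h2] at h1
  have h3 : s ^ n ≤ 2 * q * (s ^ n / q) := by
    have h4 : 1 ≤ s ^ n / q := (Nat.one_le_div_iff hq).2 hn
    have h5 := Nat.lt_mul_div_succ (s ^ n) hq
    nlinarith
  calc #A * s ^ n ≤ #A * (2 * q * (s ^ n / q)) := Nat.mul_le_mul_left _ h3
    _ = 2 * q * (#A * (s ^ n / q)) := by ring
    _ ≤ 2 * q * #(lift s n A) := Nat.mul_le_mul_left _ h1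

/-- two dense sets of residues contain numbers with digit vectors at small distance -/
theorem close_pair (hs : 2 ≤ s) {n : ℕ} (hn0 : 0 < n) (hn : q ≤ s ^ n) {A B : Finset (ZMod q)}
    {T : ℝ} (hT : 0 ≤ T) (hA : (q : ℝ) * Real.exp (-T) ≤ #A) (hB : (q : ℝ) * Real.exp (-T) ≤ #B) :
    ∃ a ∈ lift s n A, ∃ b ∈ lift s n B, (hammingDist a b : ℝ) < Real.sqrt (n * (2 * T + 2)) ∧
      (T < Real.log 2 → hammingDist a b = 0) := by
  have hq : (0 : ℝ) < q := by exact_mod_cast Nat.pos_of_ne_zero (NeZero.ne q)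
  have hn' : (0 : ℝ) < n := by exact_mod_cast hn0
  have hs' : (0 : ℝ) < s := by exact_mod_cast (show 0 < s by omega)
  rcases lt_or_ge T (Real.log 2) with hT2 | hT2
  · -- the sets meet
    have h1 : (1 / 2 : ℝ) < Real.exp (-T) := by
      have h2 : Real.exp (-Real.log 2) = 1 / 2 := by
        rw [Real.exp_neg, Real.exp_log (by norm_num)]
        norm_num
      rw [← h2]
      exact Real.exp_lt_exp.2 (by linarith)
    have h2 : (q : ℝ) < #A + #B := by nlinarith
    have h3 : q < #A + #B := by exact_mod_cast h2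
    have h4 : ¬ Disjoint A B := by
      intro hd
      have h5 := card_le_univ (A ∪ B)
      rw [card_union_of_disjoint hd, ZMod.card] at h5
      omega
    obtain ⟨y, hyA, hyB⟩ := not_disjoint_iff.1 h4
    have h5 : y.val < s ^ n := (ZMod.val_lt y).trans_le hn
    set c : Fin n → Fin s := finFunctionFinEquiv.symm ⟨y.val, h5⟩ with hc
    have h6 : ((finFunctionFinEquiv c : ℕ) : ZMod q) = y := by
      rw [hc, Equiv.apply_symm_apply]
      exact ZMod.natCast_zmod_val y
    refine ⟨c, ?_, c, ?_, ?_, fun _ => hammingDist_self c⟩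
    · simp only [lift, mem_filter, mem_univ, true_and]
      rwa [h6]
    · simp only [lift, mem_filter, mem_univ, true_and]
      rwa [h6]
    · rw [hammingDist_self, Nat.cast_zero]
      exact Real.sqrt_pos.2 (by positivity)
  · have hr0 : 0 ≤ Real.sqrt (n * (2 * T + 2)) := Real.sqrt_nonneg _
    have hcard : ∀ X : Finset (ZMod q), (q : ℝ) * Real.exp (-T) ≤ #X →
        Real.exp (-T) * (s : ℝ) ^ n / 2 ≤ #(lift s n X) := by
      intro X hX
      have h1 : (#X : ℝ) * (s : ℝ) ^ n ≤ 2 * q * #(lift s n X) := by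
        exact_mod_cast card_lift (by omega) hn X
      have h2 : (q : ℝ) * Real.exp (-T) * (s : ℝ) ^ n ≤ #X * (s : ℝ) ^ n :=
        mul_le_mul_of_nonneg_right hX (by positivity)
      have h3 : (q : ℝ) * (Real.exp (-T) * (s : ℝ) ^ n / 2) ≤ q * #(lift s n X) := by nlinarith
      exact le_of_mul_le_mul_left h3 hq
    have hA' := hcard A hA
    have hB' := hcard B hB
    obtain ⟨a, ha, b, hb, h⟩ := blow (α := Fin s) hn0 (lift s n A) (lift s n B) hr0 (by
      rw [Real.sq_sqrt (by positivity), Fintype.card_fin]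
      have h1 : (n : ℝ) * (2 * T + 2) / n = 2 * T + 2 := by field_simp
      rw [h1]
      have h2 : (4 : ℝ) < Real.exp 2 := by
        have h3 := Real.exp_one_gt_d9
        have h4 : Real.exp 2 = Real.exp 1 * Real.exp 1 := by
          rw [← Real.exp_add]; norm_num
        rw [h4]
        nlinarith
      have h3 : Real.exp (-T) * Real.exp (-T) * Real.exp (2 * T + 2) = Real.exp 2 := by
        rw [← Real.exp_add, ← Real.exp_add]
        congr 1
        ring
      have h5 : (0 : ℝ) < (s : ℝ) ^ (2 * n) := by positivity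
      have h6 : (s : ℝ) ^ (2 * n) = (s : ℝ) ^ n * (s : ℝ) ^ n := by rw [two_mul, pow_add]
      calc (s : ℝ) ^ (2 * n) < (s : ℝ) ^ (2 * n) * (Real.exp 2 / 4) := by
            rw [lt_mul_iff_one_lt_right h5, lt_div_iff₀ (by norm_num)]
            linarith
        _ = (Real.exp (-T) * (s : ℝ) ^ n / 2) * (Real.exp (-T) * (s : ℝ) ^ n / 2) *
            Real.exp (2 * T + 2) := by
            rw [← h3, h6]
            ring
        _ ≤ #(lift s n A) * #(lift s n B) * Real.exp (2 * T + 2) := by
            have h7 : (0 : ℝ) ≤ Real.exp (-T) * (s : ℝ) ^ n / 2 := by positivity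
            gcongr)
    exact ⟨a, ha, b, hb, h, fun h' => absurd h' (not_lt.2 hT2)⟩

end Pool.Agent.Lib.KDig
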